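import Pool.Agent.Run7.h670.MY.Stm

/-!
# Project MY of helper670: piece COST
-/

set_option autoImplicit false

open MeasureTheory Set
open scoped ENNReal RealInnerProductSpace

namespace Run7.h305.MY

open Pool.Agent.Run7.h670.MY

theorem hh_pos (p q c s t : ℝ) (hc : 0 < c) : 0 < hh p q c s t := by
  unfold hh
  positivity

theorem hh_le (p q c s t : ℝ) (hc : 0 < c) : hh p q c s t ≤ 1 := by
  unfold hh
  rw [div_le_one (by positivity)]
  nlinarith [sq_nonneg (s - p), sq_nonneg (t - q)]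

theorem hh_cont (p q c : ℝ) (hc : 0 < c) : Continuous fun z : ℝ × ℝ => hh p q c z.1 z.2 := by
  unfold hh
  refine Continuous.div (by fun_prop) (by fun_prop) fun z => ?_
  positivity

theorem t_COST : S_CS → S_INT → S_POLY → S_COST := by
  intro hCS hINT hPOLY ρ a b e p q c hρm hρ0 hρi hρ2 hab hc h1
  set m : E → ℝ := fun x => hh p q c ⟪a, x⟫ ⟪b, x⟫ with hm
  have hm0 : ∀ x, 0 < m x := fun x => hh_pos _ _ _ _ _ hc
  have hm1 : ∀ x, m x ≤ 1 := fun x => hh_le _ _ _ _ _ hc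
  have hmc : Continuous m := (hh_cont p q c hc).comp
    (f := fun x : E => ((⟪a, x⟫ : ℝ), (⟪b, x⟫ : ℝ))) (by fun_prop)
  have hint : ∀ φ : E → ℝ, Continuous φ → (∀ x, ‖φ x‖ ≤ 1) → Integrable fun x => ρ x * φ x := by
    intro φ hφ hb
    refine Integrable.mono' hρi.norm (hρi.aestronglyMeasurable.mul hφ.aestronglyMeasurable) ?_
    refine Filter.Eventually.of_forall fun x => ?_
    rw [norm_mul]
    exact mul_le_of_le_one_right (norm_nonneg _) (hb x)
  have hmn : ∀ x, ‖m x‖ ≤ 1 := fun x => by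
    rw [Real.norm_of_nonneg (hm0 x).le]
    exact hm1 x
  have i1 : Integrable fun x => ρ x * m x := hint m hmc hmn
  have i2 : Integrable fun x => ρ x * m x ^ 2 := hint _ (hmc.pow 2) fun x => by
    rw [norm_pow]
    exact pow_le_one₀ (norm_nonneg _) (hmn x)
  have hmc3 : Continuous fun x => m x ^ (3 / 2 : ℝ) :=
    hmc.rpow_const fun x => Or.inl (hm0 x).ne'
  have i3 : Integrable fun x => ρ x * m x ^ (3 / 2 : ℝ) := hint _ hmc3 fun x => by
    rw [Real.norm_of_nonneg (Real.rpow_nonneg (hm0 x).le _)]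
    exact Real.rpow_le_one (hm0 x).le (hm1 x) (by norm_num)
  set τ : ℝ := ∫ x, ρ x * m x ^ 2 with hτ
  set J : ℝ := ∫ x, ρ x * m x ^ (3 / 2 : ℝ) with hJ
  have hS : ∫ x, ρ x * (m x + m x ^ 2) = 1 + τ := by
    rw [← h1, hτ, ← integral_add i1 i2]
    exact integral_congr_ae (Filter.Eventually.of_forall fun x => by
      simp only [hm]
      ring)
  have hτ2 : 1 / 2 ≤ τ := by
    have h2 : 0 ≤ ∫ x, (ρ x * m x ^ 2 - ρ x * m x + ρ x * (1 / 4)) := by
      refine integral_nonneg fun x => ?_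
      show 0 ≤ ρ x * m x ^ 2 - ρ x * m x + ρ x * (1 / 4)
      have : ρ x * m x ^ 2 - ρ x * m x + ρ x * (1 / 4) = ρ x * (m x - 1 / 2) ^ 2 := by ring
      rw [this]
      exact mul_nonneg (hρ0 x) (sq_nonneg _)
    have j1 : Integrable fun x => ρ x * m x ^ 2 - ρ x * m x := i2.sub i1
    rw [integral_add j1 (hρi.mul_const _), integral_sub i2 i1, h1,
      integral_mul_const, hρ2] at h2
    linarith
  have hJ0 : 0 ≤ J := integral_nonneg fun x => mul_nonneg (hρ0 x) (Real.rpow_nonneg (hm0 x).le _)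
  have hSJ : 1 + τ ≤ 17 / 8 * J := by
    have h2 : ∫ x, (ρ x * m x + ρ x * m x ^ 2 + (ρ x * m x * (1 / 4) - ρ x * (1 / 8))) ≤
        ∫ x, 17 / 8 * (ρ x * m x ^ (3 / 2 : ℝ)) := by
      refine integral_mono ((i1.add i2).add ((i1.mul_const _).sub (hρi.mul_const _)))
        (i3.const_mul _) fun x => ?_
      show ρ x * m x + ρ x * m x ^ 2 + (ρ x * m x * (1 / 4) - ρ x * (1 / 8)) ≤
        17 / 8 * (ρ x * m x ^ (3 / 2 : ℝ))
      have h3 := mul_le_mul_of_nonneg_left (hPOLY (m x) (hm0 x).le (hm1 x)) (hρ0 x)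
      nlinarith
    have j1 : Integrable fun x => ρ x * m x + ρ x * m x ^ 2 := i1.add i2
    have j2 : Integrable fun x => ρ x * m x * (1 / 4) := i1.mul_const _
    have j3 : Integrable fun x => ρ x * (1 / 8) := hρi.mul_const _
    have j4 : Integrable fun x => ρ x * m x * (1 / 4) - ρ x * (1 / 8) := j2.sub j3
    rw [integral_add j1 j4, integral_add i1 i2,
      integral_sub j2 j3, integral_mul_const, integral_mul_const,
      integral_const_mul, h1, hρ2] at h2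
    linarith
  -- the inequality of Cauchy and Schwarz
  have hcs := hCS (fun x => ENNReal.ofReal (ρ x))
    (fun s t => ENNReal.ofReal (hh p q c s t ^ (3 / 2 : ℝ))) a b e hρm.ennreal_ofReal
    (((hh_cont p q c hc).rpow_const fun z => Or.inl (hh_pos _ _ _ _ _ hc).ne').measurable.ennreal_ofReal)
    hab
  have e1 : ∫⁻ x, ENNReal.ofReal (ρ x) * ENNReal.ofReal (hh p q c ⟪a, x⟫ ⟪b, x⟫ ^ (3 / 2 : ℝ)) =
      ENNReal.ofReal J := by
    rw [hJ, ofReal_integral_eq_lintegral_ofReal i3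
      (Filter.Eventually.of_forall fun x => mul_nonneg (hρ0 x) (Real.rpow_nonneg (hm0 x).le _))]
    refine lintegral_congr fun x => ?_
    rw [ENNReal.ofReal_mul (hρ0 x)]
  have e2 : ∫⁻ z : ℝ × ℝ, ENNReal.ofReal (hh p q c z.1 z.2 ^ (3 / 2 : ℝ)) ^ 2 =
      ENNReal.ofReal (Real.pi * c ^ 2 / 2) := by
    rw [← hINT p q c hc]
    refine lintegral_congr fun z => ?_
    have hp := hh_pos p q c z.1 z.2 hc
    rw [← ENNReal.ofReal_pow (Real.rpow_nonneg hp.le _), ← Real.rpow_natCast, ← Real.rpow_mul hp.le,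
      ← Real.rpow_natCast]
    norm_num
  rw [e1, e2] at hcs
  set Λ : ℝ≥0∞ := lineEn (fun x => ENNReal.ofReal (ρ x)) e with hΛ
  change ENNReal.ofReal ((c ^ 2)⁻¹ * ∫ x, ρ x * (m x + m x ^ 2)) ≤ _
  rw [hS]
  have hS2 : (c ^ 2)⁻¹ * (1 + τ) ≤ (c ^ 2)⁻¹ * (2 / 3 * (17 / 8) ^ 2) * J ^ 2 := by
    have h3 : 1 + τ ≤ 2 / 3 * (17 / 8) ^ 2 * J ^ 2 := by
      have h4 : (1 + τ) ^ 2 ≤ (17 / 8 * J) ^ 2 := pow_le_pow_left₀ (by linarith) hSJ 2
      nlinarith
    have h5 : 0 < (c ^ 2)⁻¹ := by positivity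
    nlinarith
  calc ENNReal.ofReal ((c ^ 2)⁻¹ * (1 + τ))
      ≤ ENNReal.ofReal ((c ^ 2)⁻¹ * (2 / 3 * (17 / 8) ^ 2) * J ^ 2) := ENNReal.ofReal_le_ofReal hS2
    _ = ENNReal.ofReal ((c ^ 2)⁻¹ * (2 / 3 * (17 / 8) ^ 2)) * ENNReal.ofReal J ^ 2 := by
        rw [ENNReal.ofReal_mul (by positivity), ENNReal.ofReal_pow hJ0]
    _ ≤ ENNReal.ofReal ((c ^ 2)⁻¹ * (2 / 3 * (17 / 8) ^ 2)) *
        (Λ * ENNReal.ofReal (Real.pi * c ^ 2 / 2)) := by
        gcongr
    _ = ENNReal.ofReal ((c ^ 2)⁻¹ * (2 / 3 * (17 / 8) ^ 2)) *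
        ENNReal.ofReal (Real.pi * c ^ 2 / 2) * Λ := by ring
    _ = _ := by
        rw [← ENNReal.ofReal_mul (by positivity)]
        congr 2
        have : c ≠ 0 := hc.ne'
        field_simp

end Run7.h305.MY
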